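import Mathlib
import Pool.Agent.H728R3.SR.L
import Pool.Agent.Q167.RS.Grid
set_option autoImplicit false

/-! Vector-valued planar estimates on time windows. -/

namespace Pool.Agent.Q167.QW

open MeasureTheory Set Complex Filter Topology
open scoped ENNReal NNReal
open Pool.Agent.H147R3.PE (FT ch BS c4 c4_ne Iβ Iβ_ne L4' FT_meas1)
open Pool.Agent.H728R3.SR (e1 e1_eq e1_meas cut scale2 sg khinchine K1)
open Pool.Agent.Q167.RS (kh_low_gen)

lemma cut_BSM {h : ℝ → ℂ} {M : ℝ} (hm : Measurable h) (hb : ∀ y, ‖h y‖ ≤ M) : BS M (cut h) := by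
  refine ⟨hm.indicator measurableSet_Icc, fun z => ?_, fun z hz => ?_⟩
  · unfold cut
    exact (norm_indicator_le_norm_self _ _).trans (hb z)
  · unfold cut
    rw [indicator_of_notMem]
    intro h1
    have := abs_le.2 h1
    linarith

lemma win_nu {T : ℝ} (hT : 0 < T) {β : ℝ} (hβ0 : 0 < β) (hβ1 : β < 1) (τ h : ℝ) (hh : h ≠ 0)
    (σ : ℝ) :
    (volume.restrict (Icc τ (τ + T))) {t | |2 * -(2 * Real.pi * t) * h - σ| ≤ 1 / 2} ≤
      ENNReal.ofReal (4 * T ^ (1 - β)) * ENNReal.ofReal (|h| ^ (-β)) := by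
  have hh' : 0 < |h| := abs_pos.2 hh
  have hpi := Real.pi_gt_three
  have hm : MeasurableSet {t : ℝ | |2 * -(2 * Real.pi * t) * h - σ| ≤ 1 / 2} := by
    apply measurableSet_le _ measurable_const
    fun_prop
  rw [Measure.restrict_apply hm, ← ENNReal.ofReal_mul (by positivity)]
  have hβT : T ^ (1 - β) = T * T ^ (-β) := by
    rw [← Real.rpow_one_add' hT.le (by linarith)]
    ring_nf
  by_cases hc : |h| * T ≤ 1
  · refine (measure_mono inter_subset_right).trans ?_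
    rw [Real.volume_Icc]
    apply ENNReal.ofReal_le_ofReal
    have h1 : 1 ≤ T ^ (-β) * |h| ^ (-β) := by
      rw [← Real.mul_rpow hT.le hh'.le, mul_comm T]
      exact Real.one_le_rpow_of_pos_of_le_one_of_nonpos (by positivity) hc (by linarith)
    rw [hβT]
    have : 4 * (T * T ^ (-β)) * |h| ^ (-β) = 4 * T * (T ^ (-β) * |h| ^ (-β)) := by ring
    rw [this]
    nlinarith
  · push Not at hc
    have h1 : {t : ℝ | |2 * -(2 * Real.pi * t) * h - σ| ≤ 1 / 2} ⊆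
        Metric.closedBall (-σ / (4 * Real.pi * h)) (1 / (4 * |h|)) := by
      intro t ht
      rw [Metric.mem_closedBall, Real.dist_eq]
      have h2 : |2 * -(2 * Real.pi * t) * h - σ| =
          4 * Real.pi * |h| * |t - -σ / (4 * Real.pi * h)| := by
        have : 2 * -(2 * Real.pi * t) * h - σ =
            -(4 * Real.pi * h) * (t - -σ / (4 * Real.pi * h)) := by
          field_simp
          ring
        rw [this, abs_mul, abs_neg, abs_mul, abs_mul, abs_of_pos (show (0 : ℝ) < 4 by norm_num),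
          abs_of_pos (show (0 : ℝ) < Real.pi by linarith)]
      have h3 : |2 * -(2 * Real.pi * t) * h - σ| ≤ 1 / 2 := ht
      rw [h2] at h3
      rw [le_div_iff₀ (by positivity)]
      have h4 : 0 ≤ |h| * |t - -σ / (4 * Real.pi * h)| := by positivity
      nlinarith
    refine (measure_mono (inter_subset_left.trans h1)).trans ?_
    rw [Real.volume_closedBall]
    apply ENNReal.ofReal_le_ofReal
    have h2 : (T * |h|) ^ (-(1 - β)) ≤ 1 := by
      apply Real.rpow_le_one_of_one_le_of_nonpos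
      · linarith [mul_comm T |h|]
      · linarith
    have h3 : (T * |h|) ^ (-(1 - β)) * (T ^ (1 - β) * |h| ^ (-β)) = |h|⁻¹ := by
      rw [Real.mul_rpow hT.le hh'.le]
      have e1 : T ^ (-(1 - β)) * T ^ (1 - β) = 1 := by
        rw [← Real.rpow_add hT]
        simp
      have e2 : |h| ^ (-(1 - β)) * |h| ^ (-β) = |h|⁻¹ := by
        rw [← Real.rpow_add hh', ← Real.rpow_neg_one]
        congr 1
        ring
      calc _ = (T ^ (-(1 - β)) * T ^ (1 - β)) * (|h| ^ (-(1 - β)) * |h| ^ (-β)) := by ring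
        _ = _ := by rw [e1, e2, one_mul]
    have h4 : 0 ≤ T ^ (1 - β) * |h| ^ (-β) := by positivity
    have h5 : |h|⁻¹ ≤ T ^ (1 - β) * |h| ^ (-β) := by
      rw [← h3]
      nlinarith
    have h6 : 2 * (1 / (4 * |h|)) = |h|⁻¹ / 2 := by
      field_simp
      norm_num
    rw [h6]
    have h7 : 0 < |h|⁻¹ := by positivity
    nlinarith

lemma win4 {h : ℝ → ℂ} {M : ℝ} (hm : Measurable h) (hb : ∀ y, ‖h y‖ ≤ M) {T : ℝ} (hT : 0 < T)
    {β : ℝ} (hβ0 : 0 < β) (hβ1 : β < 1) (τ : ℝ) :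
    ∫⁻ t in Icc τ (τ + T), (∫⁻ x, ‖e1 h x t‖ₑ ^ 4) ≤
      c4 * Iβ β * ENNReal.ofReal (4 * T ^ (1 - β)) * ∫⁻ z, ‖cut h z‖ₑ ^ 4 := by
  have h1 : ∀ t, ∫⁻ x, ‖e1 h x t‖ₑ ^ 4 ≤
      ∫⁻ x, ‖FT (ch (-(2 * Real.pi * t)) (cut h)) x‖ₑ ^ 4 := by
    intro t
    simp only [e1_eq]
    rw [scale2 (fun x => ‖FT (ch (-(2 * Real.pi * t)) (cut h)) x‖ₑ ^ 4)
      (((FT_meas1 _ ((cut_BSM hm hb).ch _).meas).enorm.pow_const 4))]
    calc _ ≤ 1 * ∫⁻ x, ‖FT (ch (-(2 * Real.pi * t)) (cut h)) x‖ₑ ^ 4 := by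
          gcongr
          rw [← ENNReal.ofReal_one]
          apply ENNReal.ofReal_le_ofReal
          apply inv_le_one_of_one_le₀
          linarith [Real.pi_gt_three]
      _ = _ := one_mul _
  refine (lintegral_mono h1).trans ?_
  exact L4' (volume.restrict (Icc τ (τ + T))) (fun t => -(2 * Real.pi * t)) (by fun_prop)
    (cut_BSM hm hb) (β := β) (ENNReal.ofReal (4 * T ^ (1 - β)))
    (fun k hk σ => win_nu hT hβ0 hβ1 τ k hk σ)

lemma e1_lin {ι : Type*} [Fintype ι] {c : ι → ℝ → ℂ} {M : ℝ} (hm : ∀ k, Measurable (c k))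
    (hb : ∀ k y, ‖c k y‖ ≤ M) (δ : ι → ℂ) (x t : ℝ) :
    e1 (fun y => ∑ k, δ k * c k y) x t = ∑ k, δ k * e1 (c k) x t := by
  unfold Pool.Agent.H728R3.SR.e1
  simp only [← integral_const_mul]
  rw [← integral_finsetSum]
  · congr 1
    ext y
    rw [Finset.sum_mul]
    apply Finset.sum_congr rfl
    intro k _
    ring
  · intro k _
    apply Integrable.const_mul
    have hfin : IsFiniteMeasure ((volume : Measure ℝ).restrict (Icc (-1 : ℝ) 1)) :=
      ⟨by rw [Measure.restrict_apply_univ]; exact measure_Icc_lt_top⟩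
    have hem : Measurable fun y : ℝ => cexp (2 * Real.pi * I * ((y * x + y ^ 2 * t : ℝ) : ℂ)) := by
      apply Continuous.measurable
      fun_prop
    refine Integrable.of_bound ((hm k).mul hem).aestronglyMeasurable M (ae_of_all _ fun y => ?_)
    rw [norm_mul]
    have : (2 * Real.pi * I * ((y * x + y ^ 2 * t : ℝ) : ℂ)) =
        ((2 * Real.pi * (y * x + y ^ 2 * t) : ℝ) : ℂ) * I := by
      push_cast
      ring
    rw [this, Complex.norm_exp_ofReal_mul_I, mul_one]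
    exact hb k y

/-- the constant of the vector-valued estimate -/
noncomputable def KV (β : ℝ) : ℝ≥0∞ := c4 * Iβ β * 4 * ENNReal.ofReal (K1 4)

lemma KV_ne {β : ℝ} (hβ1 : β < 1) : KV β ≠ ⊤ := by
  unfold KV
  exact ENNReal.mul_ne_top (ENNReal.mul_ne_top (ENNReal.mul_ne_top c4_ne (Iβ_ne β hβ1))
    (by simp)) ENNReal.ofReal_ne_top

lemma e1_meas_x {h : ℝ → ℂ} (hm : Measurable h) (t : ℝ) : Measurable fun x : ℝ => e1 h x t :=
  (e1_meas hm).comp (measurable_id.prodMk measurable_const)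

lemma e1_meas_tx {h : ℝ → ℂ} (hm : Measurable h) :
    Measurable fun p : ℝ × ℝ => e1 h p.2 p.1 :=
  (e1_meas hm).comp measurable_swap

lemma e1_four_t {h : ℝ → ℂ} (hm : Measurable h) :
    Measurable fun t : ℝ => ∫⁻ x, ‖e1 h x t‖ₑ ^ 4 := by
  have h1 : Measurable fun p : ℝ × ℝ => ‖e1 h p.2 p.1‖ₑ ^ 4 := (e1_meas_tx hm).enorm.pow_const 4
  exact h1.lintegral_prod_right'

lemma e1_four_x {h : ℝ → ℂ} (hm : Measurable h) (t : ℝ) :
    Measurable fun x : ℝ => ‖e1 h x t‖ₑ ^ 4 := (e1_meas_x hm t).enorm.pow_const 4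

lemma lint_lint_sum {κ : Type} (s : Finset κ) (μ : Measure ℝ) (c : ℝ≥0∞) (hc : c ≠ ⊤)
    (G : κ → ℝ → ℝ → ℝ≥0∞) (h1 : ∀ k t, Measurable (G k t))
    (h2 : ∀ k, Measurable fun t => ∫⁻ x, G k t x) :
    ∫⁻ t, (∫⁻ x, c * ∑ k ∈ s, G k t x) ∂μ = c * ∑ k ∈ s, ∫⁻ t, (∫⁻ x, G k t x) ∂μ := by
  have h3 : ∀ t, ∫⁻ x, c * ∑ k ∈ s, G k t x = c * ∑ k ∈ s, ∫⁻ x, G k t x := by
    intro t
    rw [lintegral_const_mul' _ _ hc, lintegral_finsetSum _ fun k _ => h1 k t]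
  simp only [h3]
  rw [lintegral_const_mul' _ _ hc, lintegral_finsetSum _ fun k _ => h2 k]

/-- vector-valued fourth moments on a window -/
lemma winV {ι : Type} [Fintype ι] [DecidableEq ι] {c : ι → ℝ → ℂ} {M : ℝ}
    (hm : ∀ k, Measurable (c k)) (hb : ∀ k y, ‖c k y‖ ≤ M) {T : ℝ} (hT : 0 < T)
    {β : ℝ} (hβ0 : 0 < β) (hβ1 : β < 1) (τ : ℝ) :
    ∫⁻ t in Icc τ (τ + T), (∫⁻ x, (∑ k, ‖e1 (c k) x t‖ₑ ^ 2) ^ 2) ≤
      KV β * ENNReal.ofReal (T ^ (1 - β)) *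
        ∫⁻ z in Icc (-1 : ℝ) 1, (∑ k, ‖c k z‖ₑ ^ 2) ^ 2 := by
  have hM0 : 0 ≤ M ∨ IsEmpty ι := by
    by_cases h : Nonempty ι
    · left
      obtain ⟨k⟩ := h
      exact (norm_nonneg _).trans (hb k 0)
    · right
      exact not_nonempty_iff.1 h
  set g : (ι → Bool) → ℝ → ℂ := fun δ y => ∑ k, (sg (δ k) : ℂ) * c k y with hg
  have hgm : ∀ δ, Measurable (g δ) := fun δ => Finset.measurable_sum _ fun k _ =>
    (hm k).const_mul _
  have hgb : ∀ δ y, ‖g δ y‖ ≤ Fintype.card ι * M := by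
    intro δ y
    rw [hg]
    simp only
    refine (norm_sum_le _ _).trans ?_
    rw [← nsmul_eq_mul, ← Finset.card_univ, ← Finset.sum_const]
    apply Finset.sum_le_sum
    intro k _
    rw [norm_mul, Pool.Agent.H728R3.SR.sg_norm, one_mul]
    exact hb k y
  have h1 : ∀ x t, (∑ k, ‖e1 (c k) x t‖ₑ ^ 2) ^ 2 ≤
      ((2 : ℝ≥0∞) ^ Fintype.card ι)⁻¹ * ∑ δ : ι → Bool, ‖e1 (g δ) x t‖ₑ ^ 4 := by
    intro x t
    have h2 := kh_low_gen (fun k => e1 (c k) x t) 4 (by norm_num)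
    rw [show (4 : ℝ) / 2 = 2 by norm_num, ENNReal.rpow_ofNat] at h2
    refine h2.trans (le_of_eq ?_)
    congr 1
    apply Finset.sum_congr rfl
    intro δ _
    rw [hg, e1_lin hm hb, ENNReal.rpow_ofNat]
  have hc0 : ((2 : ℝ≥0∞) ^ Fintype.card ι)⁻¹ ≠ ⊤ := by
    rw [ENNReal.inv_ne_top]
    positivity
  calc _ ≤ ∫⁻ t in Icc τ (τ + T), (∫⁻ x, ((2 : ℝ≥0∞) ^ Fintype.card ι)⁻¹ *
        ∑ δ : ι → Bool, ‖e1 (g δ) x t‖ₑ ^ 4) :=
        lintegral_mono fun t => lintegral_mono fun x => h1 x t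
    _ = ((2 : ℝ≥0∞) ^ Fintype.card ι)⁻¹ * ∑ δ : ι → Bool,
        ∫⁻ t in Icc τ (τ + T), (∫⁻ x, ‖e1 (g δ) x t‖ₑ ^ 4) :=
        lint_lint_sum Finset.univ _ _ hc0 (fun δ t x => ‖e1 (g δ) x t‖ₑ ^ 4)
          (fun δ t => e1_four_x (hgm δ) t) (fun δ => e1_four_t (hgm δ))
    _ ≤ ((2 : ℝ≥0∞) ^ Fintype.card ι)⁻¹ * ∑ δ : ι → Bool,
        c4 * Iβ β * ENNReal.ofReal (4 * T ^ (1 - β)) * ∫⁻ z, ‖cut (g δ) z‖ₑ ^ 4 := by
        gcongr with δ
        exact win4 (hgm δ) (hgb δ) hT hβ0 hβ1 τ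
    _ = c4 * Iβ β * ENNReal.ofReal (4 * T ^ (1 - β)) * ∫⁻ z in Icc (-1 : ℝ) 1,
        ((2 : ℝ≥0∞) ^ Fintype.card ι)⁻¹ * ∑ δ : ι → Bool, ‖g δ z‖ₑ ^ 4 := by
        have h4 : ∀ δ, ∫⁻ z, ‖cut (g δ) z‖ₑ ^ 4 = ∫⁻ z in Icc (-1 : ℝ) 1, ‖g δ z‖ₑ ^ 4 := by
          intro δ
          rw [← lintegral_indicator measurableSet_Icc]
          apply lintegral_congr
          intro z
          unfold cut
          by_cases hz : z ∈ Icc (-1 : ℝ) 1
          · rw [indicator_of_mem hz, indicator_of_mem hz]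
          · rw [indicator_of_notMem hz, indicator_of_notMem hz]
            simp
        have h5 : ∑ δ : ι → Bool, c4 * Iβ β * ENNReal.ofReal (4 * T ^ (1 - β)) *
            ∫⁻ z, ‖cut (g δ) z‖ₑ ^ 4 = c4 * Iβ β * ENNReal.ofReal (4 * T ^ (1 - β)) *
            ∑ δ : ι → Bool, ∫⁻ z in Icc (-1 : ℝ) 1, ‖g δ z‖ₑ ^ 4 := by
          rw [Finset.mul_sum]
          exact Finset.sum_congr rfl fun δ _ => by rw [h4]
        have h6 : ∫⁻ z in Icc (-1 : ℝ) 1, ((2 : ℝ≥0∞) ^ Fintype.card ι)⁻¹ *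
            ∑ δ : ι → Bool, ‖g δ z‖ₑ ^ 4 = ((2 : ℝ≥0∞) ^ Fintype.card ι)⁻¹ *
            ∑ δ : ι → Bool, ∫⁻ z in Icc (-1 : ℝ) 1, ‖g δ z‖ₑ ^ 4 := by
          rw [lintegral_const_mul' _ _ hc0, lintegral_finsetSum _ fun δ _ =>
            (hgm δ).enorm.pow_const 4]
        rw [h5, h6]
        exact mul_left_comm _ _ _
    _ ≤ c4 * Iβ β * ENNReal.ofReal (4 * T ^ (1 - β)) * ∫⁻ z in Icc (-1 : ℝ) 1,
        ENNReal.ofReal (K1 4) * (∑ k, ‖c k z‖ₑ ^ 2) ^ 2 := by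
        refine mul_le_mul_right (lintegral_mono fun z => ?_) _
        have h := khinchine 4 (by norm_num) (fun k => c k z)
        rw [show (4 : ℝ) / 2 = 2 by norm_num, ENNReal.rpow_ofNat] at h
        simp only [ENNReal.rpow_ofNat] at h
        calc ((2 : ℝ≥0∞) ^ Fintype.card ι)⁻¹ * ∑ δ : ι → Bool, ‖g δ z‖ₑ ^ 4
            ≤ ((2 : ℝ≥0∞) ^ Fintype.card ι)⁻¹ * (2 ^ Fintype.card ι *
              (ENNReal.ofReal (K1 4) * (∑ k, ‖c k z‖ₑ ^ 2) ^ 2)) :=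
              mul_le_mul_right h _
          _ = _ := by
              rw [← mul_assoc, ENNReal.inv_mul_cancel (by positivity) (by simp), one_mul]
    _ = _ := by
        rw [lintegral_const_mul' _ _ ENNReal.ofReal_ne_top, ENNReal.ofReal_mul (by norm_num),
          ENNReal.ofReal_ofNat]
        unfold KV
        ring

end Pool.Agent.Q167.QW
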