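import Mathlib
import Pool.Agent.Q167.QW.Win
import Pool.Agent.H728R3.SR.F
set_option autoImplicit false

/-! First and second moments on the levels `t + B k ∈ W`. -/

namespace Pool.Agent.Q167.QW

open MeasureTheory Set Complex Filter Topology
open scoped ENNReal NNReal
open Pool.Agent.H147R3.PE (FT ch BS c4 c4_ne Iβ Iβ_ne L4' FT_meas1 SS holder24 wsum alg tsum_fin)
open Pool.Agent.H728R3.SR (e1 e1_eq e1_meas e1_bd e1_two e1_two_le cut scale2 sg khinchine K1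
  ind ind_meas ind_bd ind_dom AA RR rr rr_total RR_ne lint_prod ext M2)

lemma ind_sup (γ : ℝ) (hγ0 : 0 < γ) (hγ1 : γ ≤ 1) (a b x t : ℝ) :
    ‖e1 (ind a b) x t‖ₑ ^ 2 ≤ AA γ t * RR γ := by
  by_cases h : max a (-1) ≤ min b 1
  · have e : e1 (ind a b) x t = e1 (ind (max a (-1)) (min b 1)) x t := by
      unfold Pool.Agent.H728R3.SR.e1
      apply setIntegral_congr_fun measurableSet_Icc
      intro y hy
      simp only
      congr 1
      unfold ind
      by_cases h1 : y ∈ Icc a b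
      · rw [indicator_of_mem h1, indicator_of_mem]
        exact ⟨max_le h1.1 hy.1, le_min h1.2 hy.2⟩
      · rw [indicator_of_notMem h1, indicator_of_notMem]
        intro h2
        exact h1 ⟨(le_max_left _ _).trans h2.1, h2.2.trans (min_le_left _ _)⟩
    rw [e]
    refine (ind_dom γ x t _ _ (le_max_right _ _) h (min_le_right _ _) hγ0 hγ1).trans ?_
    refine mul_le_mul_right ?_ _
    refine (lintegral_mono_set ?_).trans (rr_total γ x t hγ0 hγ1)
    exact Ioc_subset_Ioc (le_max_right _ _) (min_le_right _ _)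
  · have e : e1 (ind a b) x t = 0 := by
      unfold Pool.Agent.H728R3.SR.e1
      rw [setIntegral_congr_fun (g := fun _ => (0 : ℂ)) measurableSet_Icc]
      · simp
      · intro y hy
        simp only
        unfold ind
        rw [indicator_of_notMem, zero_mul]
        intro h1
        exact h ((max_le h1.1 hy.1).trans (le_min h1.2 hy.2))
    rw [e]
    simp

variable {m : ℕ}

/-- squared modulus of the (translated) extension of a box -/
noncomputable def al (A : Fin m → ℝ) (B : ℝ) (lo hi : Fin m → ℝ) (x : Fin m → ℝ) (t : ℝ) : ℝ≥0∞ :=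
  ∏ j, ‖e1 (ind (lo j) (hi j)) (x j + A j) (t + B)‖ₑ ^ 2

lemma al_sup (γ : ℝ) (hγ0 : 0 < γ) (hγ1 : γ ≤ 1) (A : Fin m → ℝ) (B : ℝ) (lo hi : Fin m → ℝ)
    (x : Fin m → ℝ) (t : ℝ) : al A B lo hi x t ≤ (AA γ (t + B) * RR γ) ^ m := by
  unfold al
  calc _ ≤ ∏ _j : Fin m, (AA γ (t + B) * RR γ) :=
        Finset.prod_le_prod' fun j _ => ind_sup γ hγ0 hγ1 _ _ _ _
    _ = _ := by simp

lemma cons_int (f : Fin m → ℝ → ℝ≥0∞) (hf : ∀ j, Measurable (f j)) (G : ℝ → ℝ≥0∞)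
    (hG : Measurable G) :
    ∫⁻ x : Fin (m + 1) → ℝ, (∏ j, f j (x j.succ)) * G (x 0) =
      (∏ j, ∫⁻ y, f j y) * ∫⁻ y, G y := by
  set F : Fin (m + 1) → ℝ → ℝ≥0∞ := Fin.cons G f with hF
  have hFm : ∀ j, Measurable (F j) := by
    intro j
    refine Fin.cases ?_ (fun i => ?_) j
    · rw [hF, Fin.cons_zero]
      exact hG
    · rw [hF, Fin.cons_succ]
      exact hf i
  have h1 : ∀ x : Fin (m + 1) → ℝ, (∏ j, f j (x j.succ)) * G (x 0) = ∏ j, F j (x j) := by
    intro x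
    rw [Fin.prod_univ_succ, mul_comm]
    simp only [hF, Fin.cons_zero, Fin.cons_succ]
  simp only [h1]
  rw [lint_prod _ F hFm, Fin.prod_univ_succ, mul_comm]
  simp only [hF, Fin.cons_zero, Fin.cons_succ]

lemma al_meas_x (A : Fin m → ℝ) (B : ℝ) (lo hi : Fin m → ℝ) (j : Fin m) (t : ℝ) :
    Measurable fun y : ℝ => ‖e1 (ind (lo j) (hi j)) (y + A j) (t + B)‖ₑ ^ 2 := by
  have h1 : Measurable fun y : ℝ => e1 (ind (lo j) (hi j)) (y + A j) (t + B) :=
    (e1_meas_x (ind_meas _ _) (t + B)).comp (measurable_add_const _)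
  exact h1.enorm.pow_const 2

lemma al_int (A : Fin m → ℝ) (B : ℝ) (lo hi : Fin m → ℝ) (t : ℝ) (G : ℝ → ℝ≥0∞)
    (hG : Measurable G) :
    ∫⁻ x : Fin (m + 1) → ℝ, al A B lo hi (Fin.tail x) t * G (x 0) ≤ 2 ^ m * ∫⁻ y, G y := by
  unfold al
  simp only [Fin.tail]
  rw [cons_int (fun j y => ‖e1 (ind (lo j) (hi j)) (y + A j) (t + B)‖ₑ ^ 2)
    (fun j => al_meas_x A B lo hi j t) G hG]
  refine mul_le_mul_left ?_ _
  calc ∏ j, ∫⁻ y, ‖e1 (ind (lo j) (hi j)) (y + A j) (t + B)‖ₑ ^ 2 ≤ ∏ _j : Fin m, (2 : ℝ≥0∞) := by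
        apply Finset.prod_le_prod'
        intro j _
        rw [lintegral_add_right_eq_self (fun y => ‖e1 (ind (lo j) (hi j)) y (t + B)‖ₑ ^ 2) (A j)]
        exact e1_two_le (ind_meas _ _) (ind_bd _ _) _
    _ = _ := by simp

lemma al_meas (A : Fin m → ℝ) (B : ℝ) (lo hi : Fin m → ℝ) :
    Measurable fun y : (Fin (m + 1) → ℝ) × ℝ => al A B lo hi (Fin.tail y.1) y.2 := by
  unfold al
  apply Finset.measurable_prod
  intro j _
  have h5 : Measurable fun y : (Fin (m + 1) → ℝ) × ℝ => (Fin.tail y.1 j + A j, y.2 + B) := by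
    unfold Fin.tail
    fun_prop
  exact ((e1_meas (ind_meas _ _)).comp h5).enorm.pow_const 2

lemma al_meas_xt (A : Fin m → ℝ) (B : ℝ) (lo hi : Fin m → ℝ) (t : ℝ) :
    Measurable fun x : Fin (m + 1) → ℝ => al A B lo hi (Fin.tail x) t := by
  unfold al
  apply Finset.measurable_prod
  intro j _
  have h5 : Measurable fun x : Fin (m + 1) → ℝ => Fin.tail x j + A j := by
    unfold Fin.tail
    fun_prop
  exact ((e1_meas_x (ind_meas _ _) (t + B)).comp h5).enorm.pow_const 2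

variable {ι : Type} [Fintype ι]

/-- admissible coefficient functions -/
structure Co (c : ι → ℝ → ℂ) : Prop where
  meas : ∀ k, Measurable (c k)
  sq : ∀ y, ∑ k, ‖c k y‖ₑ ^ 2 ≤ 1

lemma Co.bd {c : ι → ℝ → ℂ} (h : Co c) (k : ι) (y : ℝ) : ‖c k y‖ ≤ 1 := by
  have h1 : ‖c k y‖ₑ ^ 2 ≤ 1 :=
    (Finset.single_le_sum (f := fun k => ‖c k y‖ₑ ^ 2) (fun _ _ => zero_le)
      (Finset.mem_univ k)).trans (h.sq y)
  rw [← ofReal_norm, ← ENNReal.ofReal_pow (norm_nonneg _), ENNReal.ofReal_le_one] at h1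
  by_contra h2
  push Not at h2
  nlinarith [norm_nonneg (c k y)]

lemma Co.mass {c : ι → ℝ → ℂ} (h : Co c) : ∑ k, ∫⁻ z, ‖cut (c k) z‖ₑ ^ 2 ≤ 2 := by
  have h1 : ∀ k, ∫⁻ z, ‖cut (c k) z‖ₑ ^ 2 = ∫⁻ z in Icc (-1 : ℝ) 1, ‖c k z‖ₑ ^ 2 := by
    intro k
    rw [← lintegral_indicator measurableSet_Icc]
    apply lintegral_congr
    intro z
    unfold cut
    by_cases hz : z ∈ Icc (-1 : ℝ) 1
    · rw [indicator_of_mem hz, indicator_of_mem hz]
    · rw [indicator_of_notMem hz, indicator_of_notMem hz]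
      simp
  simp only [h1]
  rw [← lintegral_finsetSum _ fun k _ => (h.meas k).enorm.pow_const 2]
  calc _ ≤ ∫⁻ z in Icc (-1 : ℝ) 1, 1 := lintegral_mono fun z => h.sq z
    _ = _ := by
        rw [lintegral_const, Measure.restrict_apply_univ, Real.volume_Icc]
        norm_num

/-- indicator of a window -/
noncomputable def iw (W : Set ℝ) (s : ℝ) : ℝ≥0∞ := W.indicator (fun _ => 1) s

lemma iw_meas {W : Set ℝ} (hW : MeasurableSet W) : Measurable (iw W) :=
  measurable_const.indicator hW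

lemma iw_int {W : Set ℝ} (hW : MeasurableSet W) (b : ℝ) : ∫⁻ t, iw W (t + b) = volume W := by
  rw [lintegral_add_right_eq_self (iw W) b]
  unfold iw
  rw [lintegral_indicator hW, lintegral_const, Measure.restrict_apply_univ, one_mul]

/-- the part of the square function on a window -/
noncomputable def FW (W : Set ℝ) (A : ι → Fin m → ℝ) (B : ι → ℝ) (lo hi : ι → Fin m → ℝ)
    (c : ι → ℝ → ℂ) (y : (Fin (m + 1) → ℝ) × ℝ) : ℝ≥0∞ :=
  ∑ k, iw W (y.2 + B k) *
    (al (A k) (B k) (lo k) (hi k) (Fin.tail y.1) y.2 * ‖e1 (c k) (y.1 0) y.2‖ₑ ^ 2)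

/-- planar part -/
noncomputable def GW (W : Set ℝ) (B : ι → ℝ) (c : ι → ℝ → ℂ) (x t : ℝ) : ℝ≥0∞ :=
  ∑ k, iw W (t + B k) * ‖e1 (c k) x t‖ₑ ^ 2

lemma av_meas {c : ι → ℝ → ℂ} (h : Co c) (k : ι) :
    Measurable fun y : (Fin (m + 1) → ℝ) × ℝ => ‖e1 (c k) (y.1 0) y.2‖ₑ ^ 2 := by
  have h5 : Measurable fun y : (Fin (m + 1) → ℝ) × ℝ => (y.1 0, y.2) := by fun_prop
  exact ((e1_meas (h.meas k)).comp h5).enorm.pow_const 2

lemma FW_meas {W : Set ℝ} (hW : MeasurableSet W) (A : ι → Fin m → ℝ) (B : ι → ℝ)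
    (lo hi : ι → Fin m → ℝ) {c : ι → ℝ → ℂ} (h : Co c) :
    Measurable (FW W A B lo hi c) := by
  unfold FW
  apply Finset.measurable_sum
  intro k _
  have h1 : Measurable fun y : (Fin (m + 1) → ℝ) × ℝ => iw W (y.2 + B k) :=
    (iw_meas hW).comp (measurable_snd.add_const _)
  exact h1.mul ((al_meas _ _ _ _).mul (av_meas h k))

lemma sq_meas_x {h : ℝ → ℂ} (hm : Measurable h) (t : ℝ) :
    Measurable fun x : ℝ => ‖e1 h x t‖ₑ ^ 2 := (e1_meas_x hm t).enorm.pow_const 2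

lemma GW_meas_x (W : Set ℝ) (B : ι → ℝ) {c : ι → ℝ → ℂ} (h : Co c) (t : ℝ) :
    Measurable fun x => GW W B c x t := by
  unfold GW
  exact Finset.measurable_sum _ fun k _ => (sq_meas_x (h.meas k) t).const_mul _

lemma GW_meas {W : Set ℝ} (hW : MeasurableSet W) (B : ι → ℝ) {c : ι → ℝ → ℂ} (h : Co c) :
    Measurable fun p : ℝ × ℝ => GW W B c p.2 p.1 := by
  unfold GW
  apply Finset.measurable_sum
  intro k _
  have h1 : Measurable fun p : ℝ × ℝ => iw W (p.1 + B k) :=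
    (iw_meas hW).comp (measurable_fst.add_const _)
  exact h1.mul ((e1_meas_tx (h.meas k)).enorm.pow_const 2)

lemma GW2_meas {W : Set ℝ} (hW : MeasurableSet W) (B : ι → ℝ) {c : ι → ℝ → ℂ} (h : Co c) :
    Measurable fun t : ℝ => ∫⁻ x, GW W B c x t ^ 2 := by
  have h1 : Measurable fun p : ℝ × ℝ => GW W B c p.2 p.1 ^ 2 := (GW_meas hW B h).pow_const 2
  exact h1.lintegral_prod_right'

lemma sq_meas_t (b : ℝ) {W : Set ℝ} (hW : MeasurableSet W) :
    Measurable fun t : ℝ => iw W (t + b) := (iw_meas hW).comp (measurable_add_const _)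

/-- first moment -/
lemma FW_one {W : Set ℝ} (hW : MeasurableSet W) (A : ι → Fin m → ℝ) (B : ι → ℝ)
    (lo hi : ι → Fin m → ℝ) {c : ι → ℝ → ℂ} (h : Co c) :
    ∫⁻ y, FW W A B lo hi c y ≤ 2 ^ m * 2 * volume W := by
  have h0 : ∀ k, Measurable fun y : (Fin (m + 1) → ℝ) × ℝ => iw W (y.2 + B k) *
      (al (A k) (B k) (lo k) (hi k) (Fin.tail y.1) y.2 * ‖e1 (c k) (y.1 0) y.2‖ₑ ^ 2) := by
    intro k
    have h1 : Measurable fun y : (Fin (m + 1) → ℝ) × ℝ => iw W (y.2 + B k) :=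
      (iw_meas hW).comp (measurable_snd.add_const _)
    exact h1.mul ((al_meas _ _ _ _).mul (av_meas h k))
  have h1 : ∀ k, ∫⁻ y : (Fin (m + 1) → ℝ) × ℝ, iw W (y.2 + B k) *
      (al (A k) (B k) (lo k) (hi k) (Fin.tail y.1) y.2 * ‖e1 (c k) (y.1 0) y.2‖ₑ ^ 2) ≤
      volume W * (2 ^ m * ∫⁻ z, ‖cut (c k) z‖ₑ ^ 2) := by
    intro k
    have h2 : ∫⁻ y : (Fin (m + 1) → ℝ) × ℝ, iw W (y.2 + B k) *
      (al (A k) (B k) (lo k) (hi k) (Fin.tail y.1) y.2 * ‖e1 (c k) (y.1 0) y.2‖ₑ ^ 2) =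
      ∫⁻ t, ∫⁻ x : Fin (m + 1) → ℝ, iw W (t + B k) *
      (al (A k) (B k) (lo k) (hi k) (Fin.tail x) t * ‖e1 (c k) (x 0) t‖ₑ ^ 2) := by
      rw [Measure.volume_eq_prod]
      exact lintegral_prod_symm' _ (h0 k)
    rw [h2]
    have hne : ∀ t, iw W (t + B k) ≠ ⊤ := by
      intro t
      unfold iw
      by_cases ht : t + B k ∈ W
      · rw [indicator_of_mem ht]; simp
      · rw [indicator_of_notMem ht]; simp
    calc _ = ∫⁻ t, iw W (t + B k) * ∫⁻ x : Fin (m + 1) → ℝ,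
          (al (A k) (B k) (lo k) (hi k) (Fin.tail x) t * ‖e1 (c k) (x 0) t‖ₑ ^ 2) := by
          apply lintegral_congr
          intro t
          rw [lintegral_const_mul' _ _ (hne t)]
      _ ≤ ∫⁻ t, iw W (t + B k) * (2 ^ m * ∫⁻ z, ‖cut (c k) z‖ₑ ^ 2) := by
          apply lintegral_mono
          intro t
          refine mul_le_mul_right ?_ _
          refine (al_int (A k) (B k) (lo k) (hi k) t (fun x => ‖e1 (c k) x t‖ₑ ^ 2)
            (sq_meas_x (h.meas k) t)).trans (le_of_eq ?_)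
          rw [e1_two (h.meas k) (h.bd k)]
      _ = _ := by
          rw [lintegral_mul_const _ (sq_meas_t (B k) hW), iw_int hW]
  unfold FW
  rw [lintegral_finsetSum _ fun k _ => h0 k]
  calc _ ≤ ∑ k, volume W * (2 ^ m * ∫⁻ z, ‖cut (c k) z‖ₑ ^ 2) :=
        Finset.sum_le_sum fun k _ => h1 k
    _ = volume W * (2 ^ m * ∑ k, ∫⁻ z, ‖cut (c k) z‖ₑ ^ 2) := by
        rw [← Finset.mul_sum, ← Finset.mul_sum]
    _ ≤ volume W * (2 ^ m * 2) := by
        gcongr
        exact h.mass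
    _ = _ := mul_comm _ _

/-- second moment -/
lemma FW_two {W : Set ℝ} (hW : MeasurableSet W) (A : ι → Fin m → ℝ) (B : ι → ℝ)
    (lo hi : ι → Fin m → ℝ) {c : ι → ℝ → ℂ} (h : Co c) {D : ℝ≥0∞}
    (hD : ∀ k x t, t + B k ∈ W → al (A k) (B k) (lo k) (hi k) x t ≤ D) :
    ∫⁻ y, FW W A B lo hi c y ^ 2 ≤ D * 2 ^ m * ∫⁻ t, (∫⁻ x, GW W B c x t ^ 2) := by
  have hp : ∀ y, FW W A B lo hi c y ≤ D * GW W B c (y.1 0) y.2 := by
    intro y
    unfold FW GW
    rw [Finset.mul_sum]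
    apply Finset.sum_le_sum
    intro k _
    by_cases ht : y.2 + B k ∈ W
    · calc _ ≤ iw W (y.2 + B k) * (D * ‖e1 (c k) (y.1 0) y.2‖ₑ ^ 2) := by
            gcongr
            exact hD k _ _ ht
        _ = _ := by ring
    · have : iw W (y.2 + B k) = 0 := by
        unfold iw
        rw [indicator_of_notMem ht]
      rw [this]
      simp
  have hGm : Measurable fun y : (Fin (m + 1) → ℝ) × ℝ => GW W B c (y.1 0) y.2 := by
    have h5 : Measurable fun y : (Fin (m + 1) → ℝ) × ℝ => (y.2, y.1 0) := by fun_prop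
    exact (GW_meas hW B h).comp h5
  have hFm := FW_meas hW A B lo hi h
  have h1 : ∫⁻ y, FW W A B lo hi c y ^ 2 ≤
      ∫⁻ y, D * (FW W A B lo hi c y * GW W B c (y.1 0) y.2) := by
    apply lintegral_mono
    intro y
    calc FW W A B lo hi c y ^ 2 = FW W A B lo hi c y * FW W A B lo hi c y := sq _
      _ ≤ FW W A B lo hi c y * (D * GW W B c (y.1 0) y.2) := mul_le_mul_right (hp y) _
      _ = _ := by ring
  refine h1.trans ?_
  have hFG : Measurable fun y : (Fin (m + 1) → ℝ) × ℝ =>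
      FW W A B lo hi c y * GW W B c (y.1 0) y.2 := hFm.mul hGm
  rw [lintegral_const_mul _ hFG, mul_assoc]
  refine mul_le_mul_right ?_ _
  rw [Measure.volume_eq_prod, lintegral_prod_symm' _ hFG]
  have hfin : ∫⁻ t, 2 ^ m * (∫⁻ x, GW W B c x t ^ 2) =
      2 ^ m * ∫⁻ t, (∫⁻ x, GW W B c x t ^ 2) :=
    lintegral_const_mul _ (GW2_meas hW B h)
  rw [← hfin]
  apply lintegral_mono
  intro t
  simp only
  have e1' : ∀ x : Fin (m + 1) → ℝ, FW W A B lo hi c (x, t) * GW W B c (x 0) t =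
      ∑ k, iw W (t + B k) * (al (A k) (B k) (lo k) (hi k) (Fin.tail x) t *
        (‖e1 (c k) (x 0) t‖ₑ ^ 2 * GW W B c (x 0) t)) := by
    intro x
    unfold FW
    rw [Finset.sum_mul]
    apply Finset.sum_congr rfl
    intro k _
    ring
  simp only [e1']
  have hkm : ∀ k, Measurable fun x : ℝ => ‖e1 (c k) x t‖ₑ ^ 2 * GW W B c x t := fun k =>
    (sq_meas_x (h.meas k) t).mul (GW_meas_x W B h t)
  have hkm2 : ∀ k, Measurable fun x : Fin (m + 1) → ℝ =>
      al (A k) (B k) (lo k) (hi k) (Fin.tail x) t *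
        (‖e1 (c k) (x 0) t‖ₑ ^ 2 * GW W B c (x 0) t) := by
    intro k
    have h8 := al_meas_xt (A k) (B k) (lo k) (hi k) t
    have h9 : Measurable fun x : Fin (m + 1) → ℝ => x 0 := measurable_pi_apply 0
    have h10 : Measurable fun x : Fin (m + 1) → ℝ =>
        ‖e1 (c k) (x 0) t‖ₑ ^ 2 * GW W B c (x 0) t := (hkm k).comp h9
    exact h8.mul h10
  rw [lintegral_finsetSum _ fun k _ => (hkm2 k).const_mul _]
  calc _ = ∑ k, iw W (t + B k) * ∫⁻ x : Fin (m + 1) → ℝ,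
        (al (A k) (B k) (lo k) (hi k) (Fin.tail x) t *
        (‖e1 (c k) (x 0) t‖ₑ ^ 2 * GW W B c (x 0) t)) := by
        apply Finset.sum_congr rfl
        intro k _
        rw [lintegral_const_mul _ (hkm2 k)]
    _ ≤ ∑ k, iw W (t + B k) * (2 ^ m * ∫⁻ x, ‖e1 (c k) x t‖ₑ ^ 2 * GW W B c x t) := by
        gcongr with k
        exact al_int _ _ _ _ t _ (hkm k)
    _ = 2 ^ m * ∑ k, ∫⁻ x, iw W (t + B k) * (‖e1 (c k) x t‖ₑ ^ 2 * GW W B c x t) := by
        rw [Finset.mul_sum]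
        apply Finset.sum_congr rfl
        intro k _
        rw [lintegral_const_mul _ (hkm k)]
        ring
    _ = 2 ^ m * ∫⁻ x, GW W B c x t ^ 2 := by
        rw [← lintegral_finsetSum _ fun k _ => (hkm k).const_mul _]
        congr 1
        apply lintegral_congr
        intro x
        have e3 : GW W B c x t * GW W B c x t =
            ∑ k, iw W (t + B k) * ‖e1 (c k) x t‖ₑ ^ 2 * GW W B c x t := by
          rw [← Finset.sum_mul]
          rfl
        rw [sq, e3]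
        apply Finset.sum_congr rfl
        intro k _
        rw [mul_assoc]

end Pool.Agent.Q167.QW
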