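import Mathlib
import Pool.Agent.Q167.QW.Two
import Pool.Agent.H728R3.SR.G
set_option autoImplicit false

/-! The planar square function on time windows. -/

namespace Pool.Agent.Q167.QW

open MeasureTheory Set Complex Filter Topology
open scoped ENNReal NNReal
open Pool.Agent.H147R3.PE (FT ch BS c4 c4_ne Iβ Iβ_ne L4' FT_meas1 SS holder24 wsum alg tsum_fin)
open Pool.Agent.H728R3.SR (e1 e1_eq e1_meas e1_bd e1_two e1_two_le cut scale2 sg khinchine K1
  ind ind_meas ind_bd ind_dom AA RR rr rr_total RR_ne lint_prod ext e1_smul)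

lemma avg (T : ℝ) (H : ℝ → ℝ≥0∞) (hH : Measurable H) :
    ENNReal.ofReal T * ∫⁻ t, H t = ∫⁻ τ, ∫⁻ t in Icc τ (τ + T), H t := by
  have h1 : ∀ τ, ∫⁻ t in Icc τ (τ + T), H t =
      ∫⁻ t, (Icc (t - T) t).indicator (fun _ => H t) τ := by
    intro τ
    rw [← lintegral_indicator measurableSet_Icc]
    apply lintegral_congr
    intro t
    by_cases h : t ∈ Icc τ (τ + T)
    · rw [indicator_of_mem h, indicator_of_mem]
      exact ⟨by linarith [h.2], h.1⟩
    · rw [indicator_of_notMem h, indicator_of_notMem]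
      intro h2
      exact h ⟨h2.2, by linarith [h2.1]⟩
  simp only [h1]
  have hm : Measurable (Function.uncurry fun τ t : ℝ =>
      (Icc (t - T) t).indicator (fun _ => H t) τ) := by
    have h2 : (Function.uncurry fun τ t : ℝ => (Icc (t - T) t).indicator (fun _ => H t) τ) =
        ({p : ℝ × ℝ | p.2 - T ≤ p.1 ∧ p.1 ≤ p.2}).indicator (fun p => H p.2) := by
      ext ⟨τ, t⟩
      simp only [Function.uncurry_apply_pair]
      by_cases h : τ ∈ Icc (t - T) t
      · rw [indicator_of_mem h, indicator_of_mem]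
        exact ⟨h.1, h.2⟩
      · rw [indicator_of_notMem h, indicator_of_notMem]
        intro h2
        exact h ⟨h2.1, h2.2⟩
    rw [h2]
    apply (hH.comp measurable_snd).indicator
    apply MeasurableSet.inter
    · exact measurableSet_le (measurable_snd.sub_const T) measurable_fst
    · exact measurableSet_le measurable_fst measurable_snd
  rw [lintegral_lintegral_swap hm.aemeasurable, ← lintegral_const_mul _ hH]
  apply lintegral_congr
  intro t
  rw [lintegral_indicator measurableSet_Icc, lintegral_const, Measure.restrict_apply_univ,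
    Real.volume_Icc, mul_comm]
  congr 2
  ring

variable {ι : Type} [Fintype ι]

lemma vol3 (T : ℝ) : volume {s : ℝ | |s| ≤ 3 * T} = ENNReal.ofReal (6 * T) := by
  have h1 : {s : ℝ | |s| ≤ 3 * T} = Icc (-(3 * T)) (3 * T) := by
    ext s
    rw [Set.mem_ofPred_eq, abs_le, mem_Icc]
  rw [h1, Real.volume_Icc]
  congr 1
  ring

/-- one window -/
lemma GW_win {W : Set ℝ} {T : ℝ} (hT : 0 < T) (hWT : ∀ s ∈ W, |s| ≤ 2 * T)
    (B : ι → ℝ) {c : ι → ℝ → ℂ} (h : Co c) {β : ℝ} (hβ0 : 0 < β) (hβ1 : β < 1) (τ : ℝ) :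
    ∫⁻ t in Icc τ (τ + T), (∫⁻ x, GW W B c x t ^ 2) ≤
      KV β * ENNReal.ofReal (T ^ (1 - β)) *
        ∑ k, iw {s : ℝ | |s| ≤ 3 * T} (τ + B k) * ∫⁻ z, ‖cut (c k) z‖ₑ ^ 2 := by
  classical
  set V : Set ℝ := {s : ℝ | |s| ≤ 3 * T} with hV
  set s : ι → ℂ := fun k => V.indicator (fun _ => (1 : ℂ)) (τ + B k) with hs
  have hs2 : ∀ k, ‖s k‖ₑ ^ 2 = iw V (τ + B k) := by
    intro k
    rw [hs]
    unfold iw
    by_cases hk : τ + B k ∈ V
    · simp only [indicator_of_mem hk]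
      simp
    · simp only [indicator_of_notMem hk]
      simp
  have hs1 : ∀ k, ‖s k‖ ≤ 1 := by
    intro k
    rw [hs]
    by_cases hk : τ + B k ∈ V
    · simp only [indicator_of_mem hk]
      simp
    · simp only [indicator_of_notMem hk]
      simp
  have hb : ∀ k y, ‖s k * c k y‖ ≤ 1 := by
    intro k y
    rw [norm_mul]
    exact mul_le_one₀ (hs1 k) (norm_nonneg _) (h.bd k y)
  have h1 := winV (c := fun k y => s k * c k y) (M := 1) (fun k => (h.meas k).const_mul (s k)) hb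
    hT hβ0 hβ1 τ
  have h2 : ∀ t ∈ Icc τ (τ + T), ∀ x, GW W B c x t ^ 2 ≤
      (∑ k, ‖e1 (fun y => s k * c k y) x t‖ₑ ^ 2) ^ 2 := by
    intro t ht x
    refine pow_le_pow_left' ?_ 2
    unfold GW
    apply Finset.sum_le_sum
    intro k _
    rw [e1_smul, enorm_mul, mul_pow, hs2]
    refine mul_le_mul_left ?_ _
    unfold iw
    by_cases hk : t + B k ∈ W
    · have h3 := hWT _ hk
      have h4 : τ + B k ∈ V := by
        rw [hV, Set.mem_ofPred_eq]
        rw [abs_le] at h3 ⊢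
        constructor <;> linarith [ht.1, ht.2, h3.1, h3.2]
      rw [indicator_of_mem hk, indicator_of_mem h4]
    · rw [indicator_of_notMem hk]
      exact zero_le
  have h3 : ∫⁻ t in Icc τ (τ + T), (∫⁻ x, GW W B c x t ^ 2) ≤
      ∫⁻ t in Icc τ (τ + T), (∫⁻ x, (∑ k, ‖e1 (fun y => s k * c k y) x t‖ₑ ^ 2) ^ 2) :=
    setLIntegral_mono' measurableSet_Icc fun t ht => lintegral_mono fun x => h2 t ht x
  refine h3.trans (h1.trans ?_)
  refine mul_le_mul_right ?_ _
  have h4 : ∀ z, (∑ k, ‖s k * c k z‖ₑ ^ 2) ^ 2 ≤ ∑ k, iw V (τ + B k) * ‖c k z‖ₑ ^ 2 := by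
    intro z
    have h5 : ∑ k, ‖s k * c k z‖ₑ ^ 2 = ∑ k, iw V (τ + B k) * ‖c k z‖ₑ ^ 2 := by
      apply Finset.sum_congr rfl
      intro k _
      rw [enorm_mul, mul_pow, hs2]
    have h6 : ∑ k, iw V (τ + B k) * ‖c k z‖ₑ ^ 2 ≤ 1 := by
      calc _ ≤ ∑ k, 1 * ‖c k z‖ₑ ^ 2 := by
            gcongr with k
            unfold iw
            by_cases hk : τ + B k ∈ V
            · rw [indicator_of_mem hk]
            · rw [indicator_of_notMem hk]
              exact zero_le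
        _ ≤ 1 := by
            simp only [one_mul]
            exact h.sq z
    rw [h5, sq]
    calc _ ≤ (∑ k, iw V (τ + B k) * ‖c k z‖ₑ ^ 2) * 1 := mul_le_mul_right h6 _
      _ = _ := mul_one _
  have h7 : ∀ k, ∫⁻ z, ‖cut (c k) z‖ₑ ^ 2 = ∫⁻ z in Icc (-1 : ℝ) 1, ‖c k z‖ₑ ^ 2 := by
    intro k
    rw [← lintegral_indicator measurableSet_Icc]
    apply lintegral_congr
    intro z
    unfold cut
    by_cases hz : z ∈ Icc (-1 : ℝ) 1
    · rw [indicator_of_mem hz, indicator_of_mem hz]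
    · rw [indicator_of_notMem hz, indicator_of_notMem hz]
      simp
  calc ∫⁻ z in Icc (-1 : ℝ) 1, (∑ k, ‖s k * c k z‖ₑ ^ 2) ^ 2
      ≤ ∫⁻ z in Icc (-1 : ℝ) 1, ∑ k, iw V (τ + B k) * ‖c k z‖ₑ ^ 2 :=
        lintegral_mono fun z => h4 z
    _ = ∑ k, iw V (τ + B k) * ∫⁻ z in Icc (-1 : ℝ) 1, ‖c k z‖ₑ ^ 2 := by
        rw [lintegral_finsetSum _ fun k _ => ((h.meas k).enorm.pow_const 2).const_mul _]
        apply Finset.sum_congr rfl
        intro k _
        rw [lintegral_const_mul _ ((h.meas k).enorm.pow_const 2)]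
    _ = _ := by
        apply Finset.sum_congr rfl
        intro k _
        rw [h7]

/-- all times -/
lemma GW_all {W : Set ℝ} (hW : MeasurableSet W) {T : ℝ} (hT : 0 < T)
    (hWT : ∀ s ∈ W, |s| ≤ 2 * T) (B : ι → ℝ) {c : ι → ℝ → ℂ} (h : Co c) {β : ℝ} (hβ0 : 0 < β)
    (hβ1 : β < 1) :
    ∫⁻ t, (∫⁻ x, GW W B c x t ^ 2) ≤ 12 * KV β * ENNReal.ofReal (T ^ (1 - β)) := by
  have hVm : MeasurableSet {s : ℝ | |s| ≤ 3 * T} := measurableSet_le measurable_norm measurable_const
  have h1 := avg T (fun t => ∫⁻ x, GW W B c x t ^ 2) (GW2_meas hW B h)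
  have h2 : ∫⁻ τ, ∫⁻ t in Icc τ (τ + T), (∫⁻ x, GW W B c x t ^ 2) ≤
      ENNReal.ofReal T * (12 * KV β * ENNReal.ofReal (T ^ (1 - β))) := by
    calc _ ≤ ∫⁻ τ, KV β * ENNReal.ofReal (T ^ (1 - β)) *
          ∑ k, iw {s : ℝ | |s| ≤ 3 * T} (τ + B k) * ∫⁻ z, ‖cut (c k) z‖ₑ ^ 2 :=
          lintegral_mono fun τ => GW_win hT hWT B h hβ0 hβ1 τ
      _ = KV β * ENNReal.ofReal (T ^ (1 - β)) *
          ∑ k, ENNReal.ofReal (6 * T) * ∫⁻ z, ‖cut (c k) z‖ₑ ^ 2 := by
          rw [lintegral_const_mul _ (Finset.measurable_sum _ fun k _ =>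
            (sq_meas_t (B k) hVm).mul_const _),
            lintegral_finsetSum _ fun k _ => (sq_meas_t (B k) hVm).mul_const _]
          congr 1
          apply Finset.sum_congr rfl
          intro k _
          rw [lintegral_mul_const _ (sq_meas_t (B k) hVm), iw_int hVm, vol3]
      _ ≤ KV β * ENNReal.ofReal (T ^ (1 - β)) * (ENNReal.ofReal (6 * T) * 2) := by
          rw [← Finset.mul_sum]
          gcongr
          exact h.mass
      _ = _ := by
          rw [ENNReal.ofReal_mul (by norm_num : (0 : ℝ) ≤ 6), ENNReal.ofReal_ofNat]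
          have : (12 : ℝ≥0∞) = 6 * 2 := by norm_num
          rw [this]
          ring
  rw [← h1] at h2
  have hT0 : ENNReal.ofReal T ≠ 0 := by
    rw [Ne, ENNReal.ofReal_eq_zero, not_le]
    exact hT
  exact (ENNReal.mul_le_mul_iff_right hT0 ENNReal.ofReal_ne_top).1 h2

end Pool.Agent.Q167.QW
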