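import Mathlib
import Pool.Agent.Q167.QW.Three
set_option autoImplicit false

/-! Levels and their sum. -/

namespace Pool.Agent.Q167.QW

open MeasureTheory Set Complex Filter Topology
open scoped ENNReal NNReal
open Pool.Agent.H147R3.PE (FT ch BS c4 c4_ne Iβ Iβ_ne L4' FT_meas1 SS holder24 wsum alg tsum_fin)
open Pool.Agent.H728R3.SR (e1 e1_eq e1_meas e1_bd e1_two e1_two_le cut scale2 sg khinchine K1
  ind ind_meas ind_bd ind_dom AA RR rr rr_total RR_ne lint_prod ext e1_smul consts2)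

/-- the levels -/
def WJ (j : ℕ) : Set ℝ := {s | (j = 0 ∨ (2 : ℝ) ^ j ≤ |s|) ∧ |s| < 2 * 2 ^ j}

lemma WJ_meas (j : ℕ) : MeasurableSet (WJ j) := by
  unfold WJ
  have habs : Measurable fun s : ℝ => |s| := measurable_norm
  exact ((MeasurableSet.const _).union (measurableSet_le measurable_const habs)).inter
    (measurableSet_lt habs measurable_const)

lemma WJ_vol (j : ℕ) : volume (WJ j) ≤ ENNReal.ofReal (4 * 2 ^ j) := by
  have h1 : WJ j ⊆ Icc (-(2 * 2 ^ j)) (2 * 2 ^ j) := fun t ht => abs_le.1 ht.2.le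
  refine (measure_mono h1).trans (le_of_eq ?_)
  rw [Real.volume_Icc]
  congr 1
  ring

lemma WJ_cov (s : ℝ) : ∃ j, s ∈ WJ j := by
  by_cases h : |s| < 2
  · refine ⟨0, Or.inl rfl, ?_⟩
    simpa using h
  · push Not at h
    obtain ⟨j, hj1, hj2⟩ := exists_nat_pow_near (by linarith : (1 : ℝ) ≤ |s|)
      (by norm_num : (1 : ℝ) < 2)
    refine ⟨j, Or.inr hj1, ?_⟩
    rw [pow_succ] at hj2
    linarith

lemma WJ_AA (γ : ℝ) (hγ1 : γ ≤ 1) (j : ℕ) (s : ℝ) (hs : s ∈ WJ j) :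
    AA γ s ≤ ENNReal.ofReal (16 * ((2 : ℝ) ^ j) ^ (γ / 2 - 1)) := by
  have h2j : (1 : ℝ) ≤ 2 ^ j := one_le_pow₀ (by norm_num)
  unfold AA
  split_ifs with h
  · rw [← ENNReal.ofReal_one]
    apply ENNReal.ofReal_le_ofReal
    have hj : (2 : ℝ) ^ j = 1 := by
      rcases hs.1 with h0 | h0
      · rw [h0, pow_zero]
      · linarith
    rw [hj, Real.one_rpow]
    norm_num
  · push Not at h
    apply ENNReal.ofReal_le_ofReal
    gcongr ?_ * ?_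
    rcases hs.1 with h0 | h0
    · rw [h0, pow_zero, Real.one_rpow]
      exact Real.rpow_le_one_of_one_le_of_nonpos h.le (by linarith)
    · exact Real.rpow_le_rpow_of_nonpos (by linarith) h0 (by linarith)

lemma iw_tsum (s : ℝ) : 1 ≤ ∑' j, iw (WJ j) s := by
  obtain ⟨j, hj⟩ := WJ_cov s
  calc (1 : ℝ≥0∞) = iw (WJ j) s := by
        unfold iw
        rw [indicator_of_mem hj]
    _ ≤ _ := ENNReal.le_tsum j

variable {m : ℕ} {ι : Type} [Fintype ι]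

/-- the square function, squared -/
noncomputable def QF (A : ι → Fin m → ℝ) (B : ι → ℝ) (lo hi : ι → Fin m → ℝ)
    (c : ι → ℝ → ℂ) (y : (Fin (m + 1) → ℝ) × ℝ) : ℝ≥0∞ :=
  ∑ k, al (A k) (B k) (lo k) (hi k) (Fin.tail y.1) y.2 * ‖e1 (c k) (y.1 0) y.2‖ₑ ^ 2

lemma QF_le (A : ι → Fin m → ℝ) (B : ι → ℝ) (lo hi : ι → Fin m → ℝ)
    (c : ι → ℝ → ℂ) (y : (Fin (m + 1) → ℝ) × ℝ) :
    QF A B lo hi c y ≤ ∑' j, FW (WJ j) A B lo hi c y := by
  unfold QF FW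
  rw [Summable.tsum_finsetSum (fun _ _ => ENNReal.summable)]
  apply Finset.sum_le_sum
  intro k _
  rw [ENNReal.tsum_mul_right]
  calc _ = 1 * (al (A k) (B k) (lo k) (hi k) (Fin.tail y.1) y.2 *
        ‖e1 (c k) (y.1 0) y.2‖ₑ ^ 2) := (one_mul _).symm
    _ ≤ _ := by
        gcongr
        exact iw_tsum _

/-- constants of one level -/
noncomputable def CL (m : ℕ) (γ β q : ℝ) : ℝ≥0∞ :=
  (2 ^ m * 2 * 4) ^ ((4 - q) / 2) *
    ((16 * RR γ) ^ m * 2 ^ m * (12 * KV β)) ^ ((q - 2) / 2)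

lemma CL_ne (m : ℕ) (γ β q : ℝ) (hγ0 : 0 < γ) (hβ1 : β < 1) (h2 : 2 < q) (h4 : q < 4) :
    CL m γ β q ≠ ⊤ := by
  unfold CL
  apply ENNReal.mul_ne_top
  · apply ENNReal.rpow_ne_top_of_nonneg (by linarith)
    exact ENNReal.mul_ne_top (ENNReal.mul_ne_top (ENNReal.pow_ne_top (by simp)) (by simp)) (by simp)
  · apply ENNReal.rpow_ne_top_of_nonneg (by linarith)
    exact ENNReal.mul_ne_top (ENNReal.mul_ne_top (ENNReal.pow_ne_top (ENNReal.mul_ne_top (by simp)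
      (RR_ne γ hγ0))) (ENNReal.pow_ne_top (by simp))) (ENNReal.mul_ne_top (by simp) (KV_ne hβ1))

lemma lev (γ β q : ℝ) (hγ0 : 0 < γ) (hγ1 : γ ≤ 1) (hβ0 : 0 < β) (hβ1 : β < 1) (h2 : 2 < q)
    (h4 : q < 4) (j : ℕ) (A : ι → Fin m → ℝ) (B : ι → ℝ) (lo hi : ι → Fin m → ℝ)
    {c : ι → ℝ → ℂ} (h : Co c) :
    ∫⁻ y, FW (WJ j) A B lo hi c y ^ (q / 2) ≤ CL m γ β q * ENNReal.ofReal (((2 : ℝ) ^ j) ^
      ((4 - q) / 2 + ((1 - β) + (γ / 2 - 1) * m) * ((q - 2) / 2))) := by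
  have hT : (0 : ℝ) < 2 ^ j := by positivity
  have hFm := FW_meas (WJ_meas j) A B lo hi h
  have h5 := holder24 volume (fun y => FW (WJ j) A B lo hi c y ^ (1 / 2 : ℝ)) (hFm.pow_const _)
    q h2 h4
  have e1' : ∀ y, (FW (WJ j) A B lo hi c y ^ (1 / 2 : ℝ)) ^ q = FW (WJ j) A B lo hi c y ^ (q / 2) := by
    intro y
    rw [← ENNReal.rpow_mul]
    congr 1
    ring
  have e2 : ∀ y, (FW (WJ j) A B lo hi c y ^ (1 / 2 : ℝ)) ^ 2 = FW (WJ j) A B lo hi c y := by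
    intro y
    rw [← ENNReal.rpow_natCast, ← ENNReal.rpow_mul]
    norm_num
  have e4 : ∀ y, (FW (WJ j) A B lo hi c y ^ (1 / 2 : ℝ)) ^ 4 = FW (WJ j) A B lo hi c y ^ 2 := by
    intro y
    rw [← ENNReal.rpow_natCast, ← ENNReal.rpow_mul, ← ENNReal.rpow_natCast]
    norm_num
  simp only [e1', e2, e4] at h5
  refine h5.trans ?_
  have h6 : ∫⁻ y, FW (WJ j) A B lo hi c y ≤ (2 ^ m * 2 * 4) * ENNReal.ofReal (2 ^ j) * 1 := by
    refine (FW_one (WJ_meas j) A B lo hi h).trans ?_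
    calc _ ≤ 2 ^ m * 2 * ENNReal.ofReal (4 * 2 ^ j) := by
          gcongr
          exact WJ_vol j
      _ = _ := by
          rw [ENNReal.ofReal_mul (by norm_num), ENNReal.ofReal_ofNat]
          ring
  have h7 : ∫⁻ y, FW (WJ j) A B lo hi c y ^ 2 ≤ ((16 * RR γ) ^ m * 2 ^ m * (12 * KV β)) *
      ENNReal.ofReal (((2 : ℝ) ^ j) ^ ((1 - β) + (γ / 2 - 1) * m)) * 1 := by
    have hD : ∀ k x t, t + B k ∈ WJ j → al (A k) (B k) (lo k) (hi k) x t ≤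
        (ENNReal.ofReal (16 * ((2 : ℝ) ^ j) ^ (γ / 2 - 1)) * RR γ) ^ m := by
      intro k x t hk
      refine (al_sup γ hγ0 hγ1 _ _ _ _ _ _).trans ?_
      refine pow_le_pow_left' ?_ m
      gcongr
      exact WJ_AA γ hγ1 j _ hk
    refine (FW_two (WJ_meas j) A B lo hi h hD).trans ?_
    have h8 := GW_all (WJ_meas j) hT (fun s hs => hs.2.le) B h hβ0 hβ1
    refine (mul_le_mul_right h8 _).trans (le_of_eq ?_)
    rw [ENNReal.ofReal_mul (by norm_num), ENNReal.ofReal_ofNat, mul_pow, mul_pow,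
      ← ENNReal.ofReal_pow (by positivity), ← Real.rpow_natCast (((2 : ℝ) ^ j) ^ (γ / 2 - 1)),
      ← Real.rpow_mul hT.le, Real.rpow_add hT (1 - β), ENNReal.ofReal_mul (by positivity), mul_pow]
    ring
  calc _ ≤ ((2 ^ m * 2 * 4) * ENNReal.ofReal (2 ^ j) * 1) ^ ((4 - q) / 2) *
        (((16 * RR γ) ^ m * 2 ^ m * (12 * KV β)) *
          ENNReal.ofReal (((2 : ℝ) ^ j) ^ ((1 - β) + (γ / 2 - 1) * m)) * 1) ^ ((q - 2) / 2) := by
        gcongr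
    _ = _ := by
        rw [alg _ _ 1 1 ((2 : ℝ) ^ j) _ _ _ hT (by linarith) (by linarith)]
        unfold CL
        simp

/-- **The square function estimate, `q < 4`.** -/
theorem QF_low (m : ℕ) (hm : 1 ≤ m) (q : ℝ) (hq : 2 * ((m : ℝ) + 2) / (m + 1) < q)
    (h4 : q < 4) :
    ∃ C : ℝ≥0∞, C ≠ ⊤ ∧ ∀ (ι : Type) [Fintype ι] (A : ι → Fin m → ℝ) (B : ι → ℝ)
      (lo hi : ι → Fin m → ℝ) (c : ι → ℝ → ℂ), Co c →
      ∫⁻ y, QF A B lo hi c y ^ (q / 2) ≤ C := by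
  have hm' : (1 : ℝ) ≤ m := by exact_mod_cast hm
  obtain ⟨h2, γ, β, hγ0, hγ1, hβ0, hβ1, hE⟩ := consts2 m q hm' hq
  set E := (4 - q) / 2 + ((1 - β) + (γ / 2 - 1) * m) * ((q - 2) / 2) with hEd
  have hE0 : E < 0 := by
    rw [hEd]
    have : (4 - q) / 2 + ((1 - β) + (γ / 2 - 1) * m) * ((q - 2) / 2) =
      (4 - q) / 2 + (1 - β) * ((q - 2) / 2) + (γ / 2 - 1) * (m * (q / 2 - 1)) := by ring
    rw [this]
    exact hE
  set κ := -E / (2 * (q / 2 - 1)) with hκ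
  have hq1 : 0 < q / 2 - 1 := by linarith
  have hκ0 : 0 < κ := by
    rw [hκ]
    apply div_pos (by linarith) (by linarith)
  have hκE : κ * (q / 2 - 1) + E = E / 2 := by
    rw [hκ, div_mul_eq_mul_div, mul_div_mul_right _ _ hq1.ne']
    linarith
  set ρ : ℝ := (2 : ℝ) ^ (-κ) with hρ
  have hρ0 : 0 < ρ := by positivity
  have hρj : ∀ j : ℕ, ρ ^ j = ((2 : ℝ) ^ j) ^ (-κ) := by
    intro j
    rw [hρ, ← Real.rpow_natCast, ← Real.rpow_natCast, ← Real.rpow_mul (by norm_num),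
      ← Real.rpow_mul (by norm_num), mul_comm]
  set S1 : ℝ≥0∞ := ∑' j : ℕ, ENNReal.ofReal (((2 : ℝ) ^ j) ^ (-κ)) with hS1
  have hS1t : S1 ≠ ⊤ := tsum_fin _ (by linarith)
  set S2 : ℝ≥0∞ := ∑' j : ℕ, ENNReal.ofReal (((2 : ℝ) ^ j) ^ (E / 2)) with hS2
  have hS2t : S2 ≠ ⊤ := tsum_fin _ (by linarith)
  have hSr : S1 ^ (q / 2 - 1) ≠ ⊤ := ENNReal.rpow_ne_top_of_nonneg hq1.le hS1t
  refine ⟨S1 ^ (q / 2 - 1) * (CL m γ β q * S2), ENNReal.mul_ne_top hSr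
    (ENNReal.mul_ne_top (CL_ne m γ β q hγ0 hβ1 h2 h4) hS2t), ?_⟩
  intro ι _ A B lo hi c h
  have hFm : ∀ j, Measurable (FW (WJ j) A B lo hi c) := fun j => FW_meas (WJ_meas j) A B lo hi h
  have h1 : ∀ y, QF A B lo hi c y ^ (q / 2) ≤ S1 ^ (q / 2 - 1) *
      ∑' j : ℕ, ENNReal.ofReal (((2 : ℝ) ^ j) ^ (κ * (q / 2 - 1))) *
        FW (WJ j) A B lo hi c y ^ (q / 2) := by
    intro y
    calc QF A B lo hi c y ^ (q / 2) ≤ (∑' j, FW (WJ j) A B lo hi c y) ^ (q / 2) := by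
          gcongr
          exact QF_le A B lo hi c y
      _ ≤ _ := wsum (fun j => FW (WJ j) A B lo hi c y) ρ hρ0 (q / 2) (by linarith)
      _ = _ := by
          simp only [hρj]
          congr 1
          apply tsum_congr
          intro j
          rw [← Real.rpow_mul (by positivity), neg_mul_neg]
  calc ∫⁻ y, QF A B lo hi c y ^ (q / 2) ≤ ∫⁻ y, S1 ^ (q / 2 - 1) *
      ∑' j : ℕ, ENNReal.ofReal (((2 : ℝ) ^ j) ^ (κ * (q / 2 - 1))) *
        FW (WJ j) A B lo hi c y ^ (q / 2) := lintegral_mono h1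
    _ = S1 ^ (q / 2 - 1) * ∑' j : ℕ, ENNReal.ofReal (((2 : ℝ) ^ j) ^ (κ * (q / 2 - 1))) *
        ∫⁻ y, FW (WJ j) A B lo hi c y ^ (q / 2) := by
        rw [lintegral_const_mul' _ _ hSr, lintegral_tsum fun j =>
          (((hFm j).pow_const _).const_mul _).aemeasurable]
        congr 1
        apply tsum_congr
        intro j
        rw [lintegral_const_mul _ ((hFm j).pow_const _)]
    _ ≤ S1 ^ (q / 2 - 1) * ∑' j : ℕ, ENNReal.ofReal (((2 : ℝ) ^ j) ^ (κ * (q / 2 - 1))) *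
        (CL m γ β q * ENNReal.ofReal (((2 : ℝ) ^ j) ^ E)) := by
        gcongr with j
        exact lev γ β q hγ0 hγ1 hβ0 hβ1 h2 h4 j A B lo hi h
    _ = _ := by
        congr 1
        rw [← ENNReal.tsum_mul_left]
        apply tsum_congr
        intro j
        have hT : (0 : ℝ) < 2 ^ j := by positivity
        rw [← hκE, Real.rpow_add hT (κ * (q / 2 - 1)) E,
          ENNReal.ofReal_mul (p := ((2 : ℝ) ^ j) ^ (κ * (q / 2 - 1))) (by positivity),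
          mul_left_comm]

end Pool.Agent.Q167.QW
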