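import Mathlib
import Pool.Agent.Q167.QW.Four
set_option autoImplicit false

/-! All exponents, and the extension operator of a quadratic wave. -/

namespace Pool.Agent.Q167.QW

open MeasureTheory Set Complex Filter Topology
open scoped ENNReal NNReal
open Pool.Agent.H147R3.PE (FT ch BS c4 c4_ne Iβ Iβ_ne L4' FT_meas1 SS holder24 wsum alg tsum_fin)
open Pool.Agent.H728R3.SR (e1 e1_eq e1_meas e1_bd e1_two e1_two_le cut scale2 sg khinchine K1
  ind ind_meas ind_bd ind_dom AA RR rr rr_total RR_ne lint_prod ext e1_smul consts2 ext_prod)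

lemma cs_int (g : ℝ → ℝ≥0∞) (hg : Measurable g) :
    (∫⁻ y in Icc (-1 : ℝ) 1, g y) ^ 2 ≤ 2 * ∫⁻ y in Icc (-1 : ℝ) 1, g y ^ 2 := by
  have h := ENNReal.lintegral_mul_le_Lp_mul_Lq ((volume : Measure ℝ).restrict (Icc (-1) 1))
    Real.HolderConjugate.two_two (f := g) (g := fun _ => 1) hg.aemeasurable aemeasurable_const
  have h1 : ∫⁻ y in Icc (-1 : ℝ) 1, (g * fun _ : ℝ => (1 : ℝ≥0∞)) y =
      ∫⁻ y in Icc (-1 : ℝ) 1, g y := by
    apply lintegral_congr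
    intro y
    simp
  simp only [ENNReal.rpow_ofNat] at h
  rw [h1] at h
  have h3 : ∫⁻ _y in Icc (-1 : ℝ) 1, (1 : ℝ≥0∞) ^ 2 = 2 := by
    rw [lintegral_const, Measure.restrict_apply_univ, Real.volume_Icc]
    norm_num
  rw [h3] at h
  calc _ ≤ ((∫⁻ y in Icc (-1 : ℝ) 1, g y ^ 2) ^ (1 / 2 : ℝ) * 2 ^ (1 / 2 : ℝ)) ^ 2 :=
        pow_le_pow_left' h 2
    _ = _ := by
        rw [mul_pow, ← ENNReal.rpow_natCast, ← ENNReal.rpow_natCast, ← ENNReal.rpow_mul,
          ← ENNReal.rpow_mul]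
        norm_num
        exact mul_comm _ _

lemma e1_cs {h : ℝ → ℂ} (hm : Measurable h) (x t : ℝ) :
    ‖e1 h x t‖ₑ ^ 2 ≤ 2 * ∫⁻ z, ‖cut h z‖ₑ ^ 2 := by
  have h1 : ‖e1 h x t‖ₑ ≤ ∫⁻ y in Icc (-1 : ℝ) 1, ‖h y‖ₑ := by
    unfold Pool.Agent.H728R3.SR.e1
    refine (enorm_integral_le_lintegral_enorm _).trans (le_of_eq ?_)
    apply lintegral_congr
    intro y
    rw [enorm_mul]
    have : (2 * Real.pi * I * ((y * x + y ^ 2 * t : ℝ) : ℂ)) =
        ((2 * Real.pi * (y * x + y ^ 2 * t) : ℝ) : ℂ) * I := by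
      push_cast
      ring
    rw [this, ← ofReal_norm (cexp _), Complex.norm_exp_ofReal_mul_I, ENNReal.ofReal_one, mul_one]
  have h2 : ∫⁻ z, ‖cut h z‖ₑ ^ 2 = ∫⁻ z in Icc (-1 : ℝ) 1, ‖h z‖ₑ ^ 2 := by
    rw [← lintegral_indicator measurableSet_Icc]
    apply lintegral_congr
    intro z
    unfold cut
    by_cases hz : z ∈ Icc (-1 : ℝ) 1
    · rw [indicator_of_mem hz, indicator_of_mem hz]
    · rw [indicator_of_notMem hz, indicator_of_notMem hz]
      simp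
  rw [h2]
  exact (pow_le_pow_left' h1 2).trans (cs_int _ hm.enorm)

variable {m : ℕ} {ι : Type} [Fintype ι]

lemma QF_bd (A : ι → Fin m → ℝ) (B : ι → ℝ) (lo hi : ι → Fin m → ℝ)
    {c : ι → ℝ → ℂ} (h : Co c) (y : (Fin (m + 1) → ℝ) × ℝ) :
    QF A B lo hi c y ≤ 4 ^ m * 4 := by
  unfold QF
  have h1 : ∀ k, al (A k) (B k) (lo k) (hi k) (Fin.tail y.1) y.2 ≤ 4 ^ m := by
    intro k
    unfold al
    calc _ ≤ ∏ _j : Fin m, (4 : ℝ≥0∞) := by
          apply Finset.prod_le_prod'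
          intro j _
          calc _ ≤ (2 : ℝ≥0∞) ^ 2 := pow_le_pow_left' (e1_bd (ind_meas _ _) (ind_bd _ _) _ _) 2
            _ = 4 := by norm_num
      _ = _ := by simp
  calc _ ≤ ∑ k, 4 ^ m * (2 * ∫⁻ z, ‖cut (c k) z‖ₑ ^ 2) := by
        gcongr with k
        · exact h1 k
        · exact e1_cs (h.meas k) _ _
    _ = 4 ^ m * (2 * ∑ k, ∫⁻ z, ‖cut (c k) z‖ₑ ^ 2) := by
        rw [← Finset.mul_sum, ← Finset.mul_sum]
    _ ≤ 4 ^ m * (2 * 2) := by
        gcongr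
        exact h.mass
    _ = _ := by norm_num

/-- **The square function estimate.** -/
theorem QF_all (m : ℕ) (hm : 1 ≤ m) (q : ℝ) (hq : 2 * ((m : ℝ) + 2) / (m + 1) < q) :
    ∃ C : ℝ≥0∞, C ≠ ⊤ ∧ ∀ (ι : Type) [Fintype ι] (A : ι → Fin m → ℝ) (B : ι → ℝ)
      (lo hi : ι → Fin m → ℝ) (c : ι → ℝ → ℂ), Co c →
      ∫⁻ y, QF A B lo hi c y ^ (q / 2) ≤ C := by
  have hm' : (1 : ℝ) ≤ m := by exact_mod_cast hm
  rcases lt_or_ge q 4 with h4 | h4
  · exact QF_low m hm q hq h4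
  · set q0 : ℝ := 7 / 2 with hq0
    have h1 : 2 * ((m : ℝ) + 2) / (m + 1) < q0 := by
      rw [div_lt_iff₀ (by linarith), hq0]
      linarith
    obtain ⟨C, hC, hCC⟩ := QF_low m hm q0 h1 (by norm_num)
    have hd : 0 ≤ (q - q0) / 2 := by rw [hq0]; linarith
    have hB : ((4 : ℝ≥0∞) ^ m * 4) ^ ((q - q0) / 2) ≠ ⊤ :=
      ENNReal.rpow_ne_top_of_nonneg hd (ENNReal.mul_ne_top (ENNReal.pow_ne_top (by simp))
        (by simp))
    refine ⟨((4 : ℝ≥0∞) ^ m * 4) ^ ((q - q0) / 2) * C, ENNReal.mul_ne_top hB hC, ?_⟩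
    intro ι _ A B lo hi c h
    calc ∫⁻ y, QF A B lo hi c y ^ (q / 2)
        ≤ ∫⁻ y, ((4 : ℝ≥0∞) ^ m * 4) ^ ((q - q0) / 2) * QF A B lo hi c y ^ (q0 / 2) := by
          apply lintegral_mono
          intro y
          have e : q / 2 = (q - q0) / 2 + q0 / 2 := by ring
          simp only
          rw [e, ENNReal.rpow_add_of_nonneg _ _ hd (by rw [hq0]; norm_num)]
          gcongr
          exact QF_bd A B lo hi h y
      _ = ((4 : ℝ≥0∞) ^ m * 4) ^ ((q - q0) / 2) * ∫⁻ y, QF A B lo hi c y ^ (q0 / 2) :=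
          lintegral_const_mul' _ _ hB
      _ ≤ _ := by
          gcongr
          exact hCC ι A B lo hi c h

/-- a modulated interval -/
noncomputable def mi (a b lo hi : ℝ) (s : ℝ) : ℂ :=
  ind lo hi s * cexp (2 * Real.pi * I * ((s * a + s ^ 2 * b : ℝ) : ℂ))

lemma e1_mi (a b lo hi x t : ℝ) : e1 (mi a b lo hi) x t = e1 (ind lo hi) (x + a) (t + b) := by
  unfold Pool.Agent.H728R3.SR.e1 mi
  congr 1
  ext s
  rw [mul_assoc, ← Complex.exp_add]
  congr 2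
  push_cast
  ring

/-- a quadratic wave in the last `m` variables on a box, times a function of the first variable -/
noncomputable def qw (a : Fin m → ℝ) (b : ℝ) (lo hi : Fin m → ℝ) (c : ℝ → ℂ)
    (ξ : Fin (m + 1) → ℝ) : ℂ :=
  cexp (2 * Real.pi * I * ((∑ j : Fin m, ξ j.succ * a j + (∑ j : Fin m, ξ j.succ ^ 2) * b : ℝ) : ℂ)) *
    (Icc lo hi).indicator (fun _ => c (ξ 0)) (fun j : Fin m => ξ j.succ)

lemma qw_eq (a : Fin m → ℝ) (b : ℝ) (lo hi : Fin m → ℝ) (c : ℝ → ℂ) :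
    qw a b lo hi c = fun ξ => ∏ j, (Fin.cons c (fun j => mi (a j) b (lo j) (hi j)) :
      Fin (m + 1) → ℝ → ℂ) j (ξ j) := by
  ext ξ
  rw [Fin.prod_univ_succ]
  simp only [Fin.cons_zero, Fin.cons_succ]
  unfold qw mi
  rw [Finset.prod_mul_distrib, ← Complex.exp_sum, ← Finset.mul_sum, ← Complex.ofReal_sum,
    Finset.sum_add_distrib, ← Finset.sum_mul]
  by_cases h : (fun j : Fin m => ξ j.succ) ∈ Icc lo hi
  · rw [indicator_of_mem h]
    have : ∀ j : Fin m, ind (lo j) (hi j) (ξ j.succ) = 1 := by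
      intro j
      unfold ind
      rw [indicator_of_mem]
      exact ⟨h.1 j, h.2 j⟩
    simp only [this]
    rw [Finset.prod_const_one]
    ring
  · rw [indicator_of_notMem h]
    have : ∃ j : Fin m, ind (lo j) (hi j) (ξ j.succ) = 0 := by
      by_contra hne
      push Not at hne
      apply h
      constructor
      · intro j
        by_contra hj
        apply hne j
        unfold ind
        rw [indicator_of_notMem]
        intro h2
        exact hj h2.1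
      · intro j
        by_contra hj
        apply hne j
        unfold ind
        rw [indicator_of_notMem]
        intro h2
        exact hj h2.2
    obtain ⟨j, hj⟩ := this
    rw [Finset.prod_eq_zero (Finset.mem_univ j) hj]
    ring

lemma ext_qw (a : Fin m → ℝ) (b : ℝ) (lo hi : Fin m → ℝ) (c : ℝ → ℂ)
    (y : (Fin (m + 1) → ℝ) × ℝ) :
    ext (qw a b lo hi c) y = e1 c (y.1 0) y.2 *
      ∏ j, e1 (ind (lo j) (hi j)) (y.1 j.succ + a j) (y.2 + b) := by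
  rw [qw_eq, ext_prod, Fin.prod_univ_succ]
  simp only [Fin.cons_zero, Fin.cons_succ, e1_mi]

lemma ext_qw_sq (a : Fin m → ℝ) (b : ℝ) (lo hi : Fin m → ℝ) (c : ℝ → ℂ)
    (y : (Fin (m + 1) → ℝ) × ℝ) :
    ‖ext (qw a b lo hi c) y‖ₑ ^ 2 =
      al a b lo hi (Fin.tail y.1) y.2 * ‖e1 c (y.1 0) y.2‖ₑ ^ 2 := by
  rw [ext_qw, enorm_mul, mul_pow, mul_comm]
  congr 1
  unfold al
  rw [← ofReal_norm, norm_prod, ENNReal.ofReal_prod_of_nonneg (fun _ _ => norm_nonneg _),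
    ← Finset.prod_pow]
  simp only [ofReal_norm]
  rfl

lemma e1_c_meas {Y : Type*} [MeasurableSpace Y] {u : ℝ → ℂ} (hu : Measurable u) {f g : Y → ℝ}
    (hf : Measurable f) (hg : Measurable g) :
    Measurable fun y => e1 u (f y) (g y) :=
  (e1_meas hu).comp (hf.prodMk hg)

lemma e1_sh_meas {u : ℝ → ℂ} (hu : Measurable u) (j : Fin m) (a b : ℝ) :
    Measurable fun y : (Fin (m + 1) → ℝ) × ℝ => e1 u (y.1 j.succ + a) (y.2 + b) := by
  have h1 : Measurable fun y : (Fin (m + 1) → ℝ) × ℝ => y.1 j.succ :=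
    (measurable_pi_apply _).comp measurable_fst
  exact e1_c_meas hu (h1.add_const a) (measurable_snd.add_const b)

lemma e1_z_meas {u : ℝ → ℂ} (hu : Measurable u) :
    Measurable fun y : (Fin (m + 1) → ℝ) × ℝ => e1 u (y.1 0) y.2 := by
  have h1 : Measurable fun y : (Fin (m + 1) → ℝ) × ℝ => y.1 0 :=
    (measurable_pi_apply _).comp measurable_fst
  exact e1_c_meas hu h1 measurable_snd

lemma ext_qw_meas (a : Fin m → ℝ) (b : ℝ) (lo hi : Fin m → ℝ) {c : ℝ → ℂ} (hc : Measurable c) :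
    Measurable (ext (qw a b lo hi c)) := by
  have e : ext (qw a b lo hi c) = fun y => e1 c (y.1 0) y.2 *
      ∏ j, e1 (ind (lo j) (hi j)) (y.1 j.succ + a j) (y.2 + b) := funext (ext_qw a b lo hi c)
  rw [e]
  exact (e1_z_meas hc).mul (Finset.measurable_prod _ fun j _ => e1_sh_meas (ind_meas _ _) j _ _)

lemma qw_meas (a : Fin m → ℝ) (b : ℝ) (lo hi : Fin m → ℝ) {c : ℝ → ℂ} (hc : Measurable c) :
    Measurable (qw a b lo hi c) := by
  rw [qw_eq]
  apply Finset.measurable_prod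
  intro j _
  refine Fin.cases ?_ (fun i => ?_) j
  · simp only [Fin.cons_zero]
    exact hc.comp (measurable_pi_apply _)
  · simp only [Fin.cons_succ]
    have h1 : Measurable (mi (a i) b (lo i) (hi i)) := by
      unfold mi
      apply (ind_meas _ _).mul
      apply Continuous.measurable
      fun_prop
    exact h1.comp (measurable_pi_apply _)

lemma qw_bd (a : Fin m → ℝ) (b : ℝ) (lo hi : Fin m → ℝ) {c : ℝ → ℂ} (hc : ∀ s, ‖c s‖ ≤ 1)
    (ξ : Fin (m + 1) → ℝ) : ‖qw a b lo hi c ξ‖ ≤ 1 := by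
  unfold qw
  rw [norm_mul]
  have : (2 * Real.pi * I * ((∑ j : Fin m, ξ j.succ * a j + (∑ j : Fin m, ξ j.succ ^ 2) * b : ℝ) : ℂ)) =
      ((2 * Real.pi * (∑ j : Fin m, ξ j.succ * a j + (∑ j : Fin m, ξ j.succ ^ 2) * b) : ℝ) : ℂ) * I := by
    push_cast
    ring
  rw [this, Complex.norm_exp_ofReal_mul_I, one_mul]
  exact (norm_indicator_le_norm_self _ _).trans (hc _)

lemma ext_sum {N : ℕ} (f : Fin N → (Fin (m + 1) → ℝ) → ℂ) (hm : ∀ k, Measurable (f k))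
    (hb : ∀ k ξ, ‖f k ξ‖ ≤ 1) (s : Fin N → ℂ) (y : (Fin (m + 1) → ℝ) × ℝ) :
    ext (fun ξ => ∑ k, s k * f k ξ) y = ∑ k, s k * ext (f k) y := by
  unfold Pool.Agent.H728R3.SR.ext
  simp only [← integral_const_mul]
  have hcube : volume (Icc (fun _ : Fin (m + 1) => (-1 : ℝ)) (fun _ => 1)) < ⊤ := by
    rw [Real.volume_Icc_pi]
    exact ENNReal.prod_lt_top fun _ _ => ENNReal.ofReal_lt_top
  have hfin : IsFiniteMeasure ((volume : Measure (Fin (m + 1) → ℝ)).restrict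
      (Icc (fun _ : Fin (m + 1) => (-1 : ℝ)) (fun _ => 1))) :=
    ⟨by rw [Measure.restrict_apply_univ]; exact hcube⟩
  rw [← integral_finsetSum]
  · congr 1
    ext ξ
    rw [Finset.sum_mul]
    apply Finset.sum_congr rfl
    intro k _
    ring
  · intro k _
    apply Integrable.const_mul
    have hem : Measurable fun ξ : Fin (m + 1) → ℝ =>
        cexp (2 * Real.pi * I * ((∑ j, ξ j * y.1 j + (∑ j, ξ j ^ 2) * y.2 : ℝ) : ℂ)) := by
      apply Continuous.measurable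
      fun_prop
    refine Integrable.of_bound ((hm k).mul hem).aestronglyMeasurable 1 (ae_of_all _ fun ξ => ?_)
    rw [norm_mul]
    have : (2 * Real.pi * I * ((∑ j, ξ j * y.1 j + (∑ j, ξ j ^ 2) * y.2 : ℝ) : ℂ)) =
        ((2 * Real.pi * (∑ j, ξ j * y.1 j + (∑ j, ξ j ^ 2) * y.2) : ℝ) : ℂ) * I := by
      push_cast
      ring
    rw [this, Complex.norm_exp_ofReal_mul_I, mul_one]
    exact hb k ξ

/-- average over signs -/
theorem qw_avg (m : ℕ) (hm : 1 ≤ m) (q : ℝ) (hq : 2 * ((m : ℝ) + 2) / (m + 1) < q) :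
    ∃ C : ℝ≥0∞, C ≠ ⊤ ∧ ∀ (N : ℕ) (A : Fin N → Fin m → ℝ) (B : Fin N → ℝ)
      (lo hi : Fin N → Fin m → ℝ) (c : Fin N → ℝ → ℂ), (∀ k, Measurable (c k)) →
      (∀ s, ∑ k, ‖c k s‖ ^ 2 ≤ 1) →
      ((2 : ℝ≥0∞) ^ N)⁻¹ * ∑ ε : Fin N → Bool, ∫⁻ y,
        ‖ext (fun ξ => ∑ k, (sg (ε k) : ℂ) * qw (A k) (B k) (lo k) (hi k) (c k) ξ) y‖ₑ ^ q ≤ C := by
  have hm' : (1 : ℝ) ≤ m := by exact_mod_cast hm
  obtain ⟨h2, -⟩ := consts2 m q hm' hq
  obtain ⟨C, hC, hCC⟩ := QF_all m hm q hq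
  refine ⟨ENNReal.ofReal (K1 q) * C, ENNReal.mul_ne_top ENNReal.ofReal_ne_top hC, ?_⟩
  intro N A B lo hi c hcm hcs
  have h : Co c := by
    refine ⟨hcm, fun y => ?_⟩
    have h1 : ∀ k, ‖c k y‖ₑ ^ 2 = ENNReal.ofReal (‖c k y‖ ^ 2) := by
      intro k
      rw [← ofReal_norm, ← ENNReal.ofReal_pow (norm_nonneg _)]
    simp only [h1]
    rw [← ENNReal.ofReal_sum_of_nonneg fun _ _ => sq_nonneg _, ← ENNReal.ofReal_one]
    exact ENNReal.ofReal_le_ofReal (hcs y)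
  have e1' : ∀ (ε : Fin N → Bool) y,
      ext (fun ξ => ∑ k, (sg (ε k) : ℂ) * qw (A k) (B k) (lo k) (hi k) (c k) ξ) y =
      ∑ k, (sg (ε k) : ℂ) * ext (qw (A k) (B k) (lo k) (hi k) (c k)) y := fun ε y =>
    ext_sum (fun k => qw (A k) (B k) (lo k) (hi k) (c k)) (fun k => qw_meas _ _ _ _ (hcm k))
      (fun k => qw_bd _ _ _ _ (h.bd k)) _ y
  simp only [e1']
  have hZ : ∀ k, Measurable (ext (qw (A k) (B k) (lo k) (hi k) (c k))) := fun k =>
    ext_qw_meas _ _ _ _ (hcm k)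
  have hZε : ∀ ε : Fin N → Bool, Measurable fun y : (Fin (m + 1) → ℝ) × ℝ =>
      ‖∑ k, (sg (ε k) : ℂ) * ext (qw (A k) (B k) (lo k) (hi k) (c k)) y‖ₑ ^ q := by
    intro ε
    apply Measurable.pow_const
    apply Measurable.enorm
    exact Finset.measurable_sum _ fun k _ => (hZ k).const_mul _
  rw [← lintegral_finsetSum _ fun ε _ => hZε ε]
  have h1 : ∫⁻ y, ∑ ε : Fin N → Bool,
      ‖∑ k, (sg (ε k) : ℂ) * ext (qw (A k) (B k) (lo k) (hi k) (c k)) y‖ₑ ^ q ≤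
      2 ^ N * (ENNReal.ofReal (K1 q) * C) := by
    calc _ ≤ ∫⁻ y, 2 ^ N * (ENNReal.ofReal (K1 q) * QF A B lo hi c y ^ (q / 2)) := by
          apply lintegral_mono
          intro y
          have := khinchine q (by linarith)
            (fun k => ext (qw (A k) (B k) (lo k) (hi k) (c k)) y)
          rw [Fintype.card_fin] at this
          refine this.trans (le_of_eq ?_)
          simp only [ext_qw_sq]
          rfl
      _ = 2 ^ N * (ENNReal.ofReal (K1 q) * ∫⁻ y, QF A B lo hi c y ^ (q / 2)) := by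
          rw [lintegral_const_mul' _ _ (by simp), lintegral_const_mul' _ _ ENNReal.ofReal_ne_top]
      _ ≤ _ := by
          gcongr
          exact hCC (Fin N) A B lo hi c h
  calc _ ≤ ((2 : ℝ≥0∞) ^ N)⁻¹ * (2 ^ N * (ENNReal.ofReal (K1 q) * C)) := mul_le_mul_right h1 _
    _ = _ := by
        rw [← mul_assoc, ENNReal.inv_mul_cancel (by simp) (by simp), one_mul]

end Pool.Agent.Q167.QW
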