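import Mathlib
import Pool.Agent.Q167.QW.Five
set_option autoImplicit false

/-!
# The restriction conjecture for the paraboloid for random superpositions of quadratic waves

Let `d = m + 2 ≥ 3` and write `ξ = (ξ_0, ξ') ∈ [-1,1] × [-1,1]^m`. Let `Q_k ⊆ ℝ^m` be any
axis-parallel boxes, `a_k ∈ ℝ^m` and `b_k ∈ ℝ` any vectors and numbers, and let `c_k` be any
measurable functions of one variable with `∑ |c_k|^2 ≤ 1`. Then the extension estimate of the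
restriction conjecture holds for
`f_ε(ξ) = ∑ ε_k exp(2πi(ξ'·a_k + |ξ'|² b_k)) 1_{Q_k}(ξ') c_k(ξ_0)`
on average over the signs `ε`, in the full range `q > 2d/(d-1)`, with a constant depending on `q`
and `d` only.

Multiplication of `1_{Q_k}(ξ') c_k(ξ_0)` by a wave in all variables,
`exp(2πi(ξ·a_k + |ξ|² b_k))`, is included, as the factor `exp(2πi(ξ_0 a_{k,0} + ξ_0² b_k))` can be
absorbed in `c_k`; so `E f_ε` is a random superposition of arbitrary translates, in space and time,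
of the functions `E(1_{Q_k} ⊗ c_k)`.
-/

namespace Pool.Agent.Results.MP_b7167f_an.RandomQuadraticWaves

open MeasureTheory Set Complex
open scoped ENNReal NNReal

/-- The extension operator of the truncated paraboloid in `ℝ^(n+1)`:
`Ef(x,t) = ∫_{[-1,1]^n} f(ξ) exp(2πi(ξ·x + |ξ|² t)) dξ`. -/
noncomputable def ext {n : ℕ} (f : (Fin n → ℝ) → ℂ) (y : (Fin n → ℝ) × ℝ) : ℂ :=
  ∫ ξ in Icc (fun _ : Fin n => (-1 : ℝ)) (fun _ => 1),
    f ξ * cexp (2 * Real.pi * I * ((∑ j, ξ j * y.1 j + (∑ j, ξ j ^ 2) * y.2 : ℝ) : ℂ))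

/-- The random superposition of quadratic waves
`f_ε(ξ) = ∑_k ε_k exp(2πi(ξ'·a_k + |ξ'|² b_k)) 1_{Q_k}(ξ') c_k(ξ_0)`, where
`ξ' = (ξ_1, ..., ξ_m)`, `Q_k = ∏_j [lo_{k,j}, hi_{k,j}]` and the sign `ε_k` is `1` if
`ε k = true` and `-1` otherwise. -/
noncomputable def waves {m N : ℕ} (a : Fin N → Fin m → ℝ) (b : Fin N → ℝ)
    (lo hi : Fin N → Fin m → ℝ) (c : Fin N → ℝ → ℂ) (ε : Fin N → Bool)
    (ξ : Fin (m + 1) → ℝ) : ℂ :=
  ∑ k, (if ε k then 1 else -1) *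
    (cexp (2 * Real.pi * I *
        ((∑ j : Fin m, ξ j.succ * a k j + (∑ j : Fin m, ξ j.succ ^ 2) * b k : ℝ) : ℂ)) *
      (Icc (lo k) (hi k)).indicator (fun _ => c k (ξ 0)) (fun j : Fin m => ξ j.succ))

/-- **The restriction conjecture for random superpositions of quadratic waves.** Let `m ≥ 1`,
`d = m + 2` and `q > 2d/(d-1)`. There is `C` such that for all `N`, all `a_k ∈ ℝ^m`, `b_k ∈ ℝ`,
all boxes `Q_k = ∏ [lo_{k,j}, hi_{k,j}]` in `ℝ^m` and all measurable `c_k` with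
`∑ |c_k|² ≤ 1`, the average over all `2^N` choices of signs of `‖E f_ε‖_{L^q(ℝ^d)}^q` is at
most `C`. -/
theorem result (m : ℕ) (hm : 1 ≤ m) (q : ℝ) (hq : 2 * ((m : ℝ) + 2) / (m + 1) < q) :
    ∃ C : ℝ≥0, ∀ (N : ℕ) (a : Fin N → Fin m → ℝ) (b : Fin N → ℝ) (lo hi : Fin N → Fin m → ℝ)
      (c : Fin N → ℝ → ℂ), (∀ k, Measurable (c k)) → (∀ s, ∑ k, ‖c k s‖ ^ 2 ≤ 1) →
        ((2 : ℝ≥0∞) ^ N)⁻¹ * ∑ ε : Fin N → Bool,
          ∫⁻ y : (Fin (m + 1) → ℝ) × ℝ, ‖ext (waves a b lo hi c ε) y‖ₑ ^ q ≤ C := by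
  obtain ⟨C, hC, hCC⟩ := Pool.Agent.Q167.QW.qw_avg m hm q hq
  refine ⟨C.toNNReal, ?_⟩
  intro N a b lo hi c hcm hcs
  rw [ENNReal.coe_toNNReal hC]
  have h1 := hCC N a b lo hi c hcm hcs
  have h2 : ∀ ε : Fin N → Bool, waves a b lo hi c ε = fun ξ => ∑ k,
      (Pool.Agent.H728R3.SR.sg (ε k) : ℂ) *
        Pool.Agent.Q167.QW.qw (a k) (b k) (lo k) (hi k) (c k) ξ := by
    intro ε
    ext ξ
    unfold waves Pool.Agent.Q167.QW.qw
    apply Finset.sum_congr rfl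
    intro k _
    have h3 : ((if ε k then 1 else -1 : ℂ)) = (Pool.Agent.H728R3.SR.sg (ε k) : ℂ) := by
      unfold Pool.Agent.H728R3.SR.sg
      split_ifs <;> simp
    rw [h3]
  simp only [h2]
  exact h1

end Pool.Agent.Results.MP_b7167f_an.RandomQuadraticWaves
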